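import Mathlib

/-!
Radius of 3-connected graphs, definitions and distance levels (helper56, page JM56.md).
-/

namespace MP_761168_co

open Finset

noncomputable section

open scoped Classical

variable {V : Type*} [Fintype V]

/-- The outer neighbourhood of a set of vertices. -/
def nb (G : SimpleGraph V) (X : Finset V) : Finset V :=
  univ.filter (fun v => v ∉ X ∧ ∃ x ∈ X, G.Adj x v)

/-- The vertices at distance exactly `i` from `s`. -/
def lev (G : SimpleGraph V) (s : V) (i : ℕ) : Finset V :=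
  univ.filter (fun v => G.dist s v = i)

/-- The vertices at distance less than `i` from `s`. -/
def low (G : SimpleGraph V) (s : V) (i : ℕ) : Finset V :=
  univ.filter (fun v => G.dist s v < i)

/-- The vertices at distance more than `i` from `s`. -/
def high (G : SimpleGraph V) (s : V) (i : ℕ) : Finset V :=
  univ.filter (fun v => i < G.dist s v)

/-- The set-form of 3-connectedness used everywhere. -/
def C3 (G : SimpleGraph V) : Prop :=
  ∀ X : Finset V, X.Nonempty → X ∪ nb G X ≠ univ → 3 ≤ (nb G X).card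

/-- The standing hypotheses: connected, 3-connected, all eccentricities at least `r`,
and few vertices. -/
structure Hyp (G : SimpleGraph V) (r : ℕ) : Prop where
  conn : G.Connected
  c3 : C3 G
  ecc : ∀ v, ∃ w, r ≤ G.dist v w
  r3 : 3 ≤ r
  small : Fintype.card V + 5 ≤ 4 * r

/-- Light sets: one side of a 3-separation, without vertices far from the separator. -/
def Light (G : SimpleGraph V) (r : ℕ) (A : Finset V) : Prop :=
  A.Nonempty ∧ (nb G A).card = 3 ∧ A ∪ nb G A ≠ univ ∧
    ∀ s ∈ nb G A, ∀ v ∈ A, G.dist s v < r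

/-- The union of all light sets which contain `y`. -/
def Mx (G : SimpleGraph V) (r : ℕ) (y : V) : Finset V :=
  univ.filter (fun v => ∃ A, Light G r A ∧ y ∈ A ∧ v ∈ A)

/-- Vertices which are not interior to a light set. -/
def Kv (G : SimpleGraph V) (r : ℕ) (s : V) : Prop :=
  ∀ A, Light G r A → s ∈ A → ∃ v, G.Adj s v ∧ v ∉ A

/-- Thin levels of `s`. -/
def thin (G : SimpleGraph V) (r : ℕ) (s : V) : Finset ℕ :=
  (Finset.Icc 2 (r - 1)).filter (fun i => (lev G s i).card = 3)

/-- Surplus of `s`. -/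
def sur (G : SimpleGraph V) (r : ℕ) (s : V) : ℕ :=
  ∑ i ∈ Finset.Icc 2 (r - 1), ((lev G s i).card - 4)

variable {G : SimpleGraph V} {r : ℕ}

theorem mem_nb {X : Finset V} {v : V} : v ∈ nb G X ↔ v ∉ X ∧ ∃ x ∈ X, G.Adj x v := by
  simp [nb]

theorem mem_lev {s v : V} {i : ℕ} : v ∈ lev G s i ↔ G.dist s v = i := by simp [lev]

theorem mem_low {s v : V} {i : ℕ} : v ∈ low G s i ↔ G.dist s v < i := by simp [low]

theorem mem_high {s v : V} {i : ℕ} : v ∈ high G s i ↔ i < G.dist s v := by simp [high]

/-- Every neighbour of a member of `X` is in `X` or in its neighbourhood. -/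
theorem mem_or_nb {X : Finset V} {x v : V} (hx : x ∈ X) (h : G.Adj x v) : v ∈ X ∨ v ∈ nb G X := by
  by_cases hv : v ∈ X
  · exact Or.inl hv
  · exact Or.inr (mem_nb.2 ⟨hv, x, hx, h⟩)

omit [Fintype V] in
theorem dist_adj_le (hc : G.Connected) (s : V) {u v : V} (h : G.Adj u v) :
    G.dist s v ≤ G.dist s u + 1 := by
  have h1 := hc.dist_triangle (u := s) (v := u) (w := v)
  have h2 : G.dist u v = 1 := SimpleGraph.dist_eq_one_iff_adj.2 h
  omega

omit [Fintype V] in
theorem exists_pred (hc : G.Connected) {s v : V} (h : s ≠ v) :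
    ∃ u, G.Adj u v ∧ G.dist s u + 1 = G.dist s v := by
  obtain ⟨p, hp⟩ := (hc.preconnected s v).exists_walk_length_eq_dist
  have hn : ¬ p.Nil := by
    intro hnil
    exact h hnil.eq
  have hadj : G.Adj p.penultimate v := p.adj_penultimate hn
  refine ⟨p.penultimate, hadj, ?_⟩
  have h1 : G.dist s p.penultimate ≤ p.dropLast.length := SimpleGraph.dist_le _
  have h2 : p.dropLast.length + 1 = p.length := SimpleGraph.Walk.length_dropLast_add_one hn
  have h3 := dist_adj_le hc s hadj
  omega

/-- Tool: a set whose neighbourhood is inside `Z`, with a vertex outside of both, has `3 ≤ |Z|`. -/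
theorem three_le (h3 : C3 G) {X Z : Finset V} {y : V} (hX : X.Nonempty) (hXZ : nb G X ⊆ Z)
    (hy : y ∉ X) (hyZ : y ∉ Z) : 3 ≤ Z.card := by
  have h1 : X ∪ nb G X ≠ univ := by
    intro h
    have h2 : y ∈ X ∪ nb G X := by rw [h]; exact mem_univ _
    rcases mem_union.1 h2 with h2 | h2
    · exact hy h2
    · exact hyZ (hXZ h2)
  exact (h3 X hX h1).trans (card_le_card hXZ)

/-- Same, when `|Z| = 3`: the neighbourhood is all of `Z`. -/
theorem nb_eq_of_three (h3 : C3 G) {X Z : Finset V} {y : V} (hX : X.Nonempty) (hXZ : nb G X ⊆ Z)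
    (hy : y ∉ X) (hyZ : y ∉ Z) (hZ : Z.card = 3) : nb G X = Z := by
  have h1 : 3 ≤ (nb G X).card := three_le h3 hX (Subset.refl _) hy (fun h => hyZ (hXZ h))
  exact eq_of_subset_of_card_le hXZ (by omega)

theorem lev_card (H : Hyp G r) (s : V) {i : ℕ} (h1 : 1 ≤ i) (h2 : i ≤ r - 1) :
    3 ≤ (lev G s i).card := by
  obtain ⟨y, hy⟩ := H.ecc s
  have hr := H.r3
  refine three_le H.c3 (X := low G s i) (y := y) ⟨s, ?_⟩ ?_ ?_ ?_
  · rw [mem_low, SimpleGraph.dist_self]; omega
  · intro v hv
    rw [mem_nb] at hv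
    obtain ⟨hv1, x, hx, hxv⟩ := hv
    rw [mem_low] at hv1 hx
    rw [mem_lev]
    have := dist_adj_le H.conn s hxv
    omega
  · rw [mem_low]; omega
  · rw [mem_lev]; omega

end

end MP_761168_co
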