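import Pool.Agent.Lib.MP_761168_co.X.JM1_56
import Pool.Agent.Lib.MP_761168_co.F.Cut51

/-!
Row JM2 (helper58, with helper51's Cut51): sections 1 and 2 of JM56.md.
-/

namespace MP_761168_co

open Finset

noncomputable section

open scoped Classical

variable {V : Type*} [Fintype V] {G : SimpleGraph V} {r : ℕ}

theorem side_count (H : Hyp G r) {A : Finset V} {s u w y : V} (hA : nb G A = {s, u, w})
    (hsu : s ≠ u) (hsw : s ≠ w) (huw : u ≠ w) (hy : y ∈ A) (hfar : r ≤ G.dist s y)
    (hle : G.dist s u ≤ G.dist s w) (hw : G.dist s w ≤ r - 1) :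
    3 * r ≤ A.card + 4 + G.dist s w := by
  have hr := H.r3
  have hsn : s ∈ nb G A := by rw [hA]; simp
  have hsA : s ∉ A := (mem_nb.1 hsn).1
  obtain ⟨-, x, hxA, hxs⟩ := mem_nb.1 hsn
  have hx1 : G.dist s x = 1 := SimpleGraph.dist_eq_one_iff_adj.2 hxs.symm
  have hnbm : ∀ z, z ∈ nb G A → z = s ∨ z = u ∨ z = w := by
    intro z hz
    rw [hA, mem_insert, mem_insert, mem_singleton] at hz
    exact hz
  -- (a): the part above level `i`
  have ha : ∀ i, 1 ≤ i → i ≤ r - 1 →
      3 ≤ ((lev G s i ∩ A) ∪ ({u, w} : Finset V).filter (fun p => i ≤ G.dist s p)).card := by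
    intro i h1 h2
    refine three_le H.c3 (X := A.filter (fun v => i < G.dist s v)) (y := s)
      ⟨y, mem_filter.2 ⟨hy, by omega⟩⟩ ?_ ?_ ?_
    · intro z hz
      rw [mem_nb] at hz
      obtain ⟨hz, v, hv, hvz⟩ := hz
      rw [mem_filter] at hv hz
      have hd : G.dist s v ≤ G.dist s z + 1 := dist_adj_le H.conn s hvz.symm
      rw [mem_union, mem_inter, mem_lev, mem_filter, mem_insert, mem_singleton]
      rcases mem_or_nb hv.1 hvz with h | h
      · left
        have : ¬ i < G.dist s z := fun h' => hz ⟨h, h'⟩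
        exact ⟨by omega, h⟩
      · right
        rcases hnbm z h with rfl | h' | h'
        · rw [SimpleGraph.dist_self] at hd
          omega
        · exact ⟨Or.inl h', by omega⟩
        · exact ⟨Or.inr h', by omega⟩
    · rw [mem_filter]
      exact fun h => hsA h.1
    · rw [mem_union, mem_inter, mem_lev, mem_filter, SimpleGraph.dist_self]
      rintro (h | h)
      · exact hsA h.2
      · omega
  -- (b): the part below level `i`
  have hb : ∀ i, 2 ≤ i → i ≤ r - 1 →
      3 ≤ ((lev G s i ∩ A) ∪ (insert s (({u, w} : Finset V).filter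
        (fun p => G.dist s p ≤ i)))).card := by
    intro i h1 h2
    refine three_le H.c3 (X := A.filter (fun v => G.dist s v < i)) (y := y)
      ⟨x, mem_filter.2 ⟨hxA, by omega⟩⟩ ?_ ?_ ?_
    · intro z hz
      rw [mem_nb] at hz
      obtain ⟨hz, v, hv, hvz⟩ := hz
      rw [mem_filter] at hv hz
      have hd : G.dist s z ≤ G.dist s v + 1 := dist_adj_le H.conn s hvz
      rw [mem_union, mem_inter, mem_lev, mem_insert, mem_filter, mem_insert, mem_singleton]
      rcases mem_or_nb hv.1 hvz with h | h
      · left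
        have : ¬ G.dist s z < i := fun h' => hz ⟨h, h'⟩
        exact ⟨by omega, h⟩
      · right
        rcases hnbm z h with h' | h' | h'
        · exact Or.inl h'
        · exact Or.inr ⟨Or.inl h', by omega⟩
        · exact Or.inr ⟨Or.inr h', by omega⟩
    · rw [mem_filter]
      omega
    · rw [mem_union, mem_inter, mem_lev, mem_insert, mem_filter]
      rintro (h | rfl | h)
      · omega
      · exact hsA hy
      · omega
  have hm : ∀ i ∈ Finset.Icc 1 (r - 1), 3 ≤ (lev G s i ∩ A).card +
      (if i ≤ G.dist s w then 1 else 0) + (if i = G.dist s u then 1 else 0) +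
      (if i = 1 then 1 else 0) := by
    intro i hi
    rw [Finset.mem_Icc] at hi
    have ha' := (ha i hi.1 hi.2).trans (card_union_le _ _)
    have hcf : (({u, w} : Finset V).filter (fun p => i ≤ G.dist s p)).card ≤
        (if i ≤ G.dist s u then 1 else 0) + (if i ≤ G.dist s w then 1 else 0) := by
      rw [card_filter, sum_pair huw]
    by_cases h1 : i = 1
    · subst h1
      have hx : x ∈ lev G s 1 ∩ A := mem_inter.2 ⟨mem_lev.2 hx1, hxA⟩
      have hpos : 1 ≤ (lev G s 1 ∩ A).card := card_pos.2 ⟨x, hx⟩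
      split_ifs at hcf ⊢ <;> omega
    · have hb' := (hb i (by omega) hi.2).trans (card_union_le _ _)
      have hcg : (({u, w} : Finset V).filter (fun p => G.dist s p ≤ i)).card ≤
          (if G.dist s u ≤ i then 1 else 0) + (if G.dist s w ≤ i then 1 else 0) := by
        rw [card_filter, sum_pair huw]
      have hci := card_insert_le s (({u, w} : Finset V).filter (fun p => G.dist s p ≤ i))
      split_ifs at hcf hcg ⊢ <;> omega
  have hsum := sum_le_sum hm
  rw [sum_const, Nat.card_Icc, smul_eq_mul, sum_add_distrib, sum_add_distrib, sum_add_distrib]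
    at hsum
  have e1 : ∑ i ∈ Finset.Icc 1 (r - 1), (if i ≤ G.dist s w then 1 else 0) = G.dist s w := by
    rw [← card_filter]
    have : (Finset.Icc 1 (r - 1)).filter (fun i => i ≤ G.dist s w) =
        Finset.Icc 1 (G.dist s w) := by
      ext k
      rw [mem_filter, Finset.mem_Icc, Finset.mem_Icc]
      omega
    rw [this, Nat.card_Icc]
    omega
  have e2 : ∑ i ∈ Finset.Icc 1 (r - 1), (if i = G.dist s u then 1 else 0) ≤ 1 := by
    rw [Finset.sum_ite_eq']
    split_ifs <;> omega
  have e3 : ∑ i ∈ Finset.Icc 1 (r - 1), (if i = 1 then 1 else 0) ≤ 1 := by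
    rw [Finset.sum_ite_eq']
    split_ifs <;> omega
  have hdis : ∀ i ∈ Finset.Icc 1 (r - 1), ∀ j ∈ Finset.Icc 1 (r - 1), i ≠ j →
      Disjoint (lev G s i ∩ A) (lev G s j ∩ A) := by
    intro i _ j _ hij
    rw [Finset.disjoint_left]
    intro v hv hv'
    rw [mem_inter, mem_lev] at hv hv'
    exact hij (hv.1.symm.trans hv'.1)
  have hyb : y ∉ (Finset.Icc 1 (r - 1)).biUnion (fun i => lev G s i ∩ A) := by
    rw [mem_biUnion]
    rintro ⟨i, hi, h⟩
    rw [Finset.mem_Icc] at hi
    rw [mem_inter, mem_lev] at h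
    omega
  have hle2 : (insert y ((Finset.Icc 1 (r - 1)).biUnion (fun i => lev G s i ∩ A))).card ≤
      A.card := by
    refine card_le_card ?_
    intro v hv
    rw [mem_insert, mem_biUnion] at hv
    rcases hv with rfl | ⟨i, -, h⟩
    · exact hy
    · exact (mem_inter.1 h).2
  rw [card_insert_of_notMem hyb, card_biUnion hdis] at hle2
  omega

theorem cut_close (H : Hyp G r) {A : Finset V} (hne : A.Nonempty) (hc : (nb G A).card = 3)
    (hB : A ∪ nb G A ≠ univ) {s t : V} (hs : s ∈ nb G A) (ht : t ∈ nb G A) : G.dist s t < r :=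
  cut_close51 H (fun hA hsu hsw huw hy hfar hle hw =>
    side_count H hA hsu hsw huw hy hfar hle hw) hne hc hB hs ht

end

end MP_761168_co
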