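import Pool.Agent.Lib.MP_761168_co.X.JM2_58

/-!
Radius of 3-connected graphs, row JM3 (helper10): light sets, sections 3 and 4 of JM56.md.
-/

namespace MP_761168_co

open Finset

noncomputable section

open scoped Classical

variable {V : Type*} [Fintype V] {G : SimpleGraph V} {r : ℕ}

theorem nb_disj (A : Finset V) {v : V} (h : v ∈ nb G A) : v ∉ A := (mem_nb.1 h).1

/-- `A`, its neighbourhood and the rest cut every set in three parts. -/
theorem part3 (A X : Finset V) :
    X.card = (X ∩ A).card + (X ∩ nb G A).card + (X ∩ (A ∪ nb G A)ᶜ).card := by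
  rw [← card_union_of_disjoint, ← card_union_of_disjoint]
  · congr 1
    ext v
    simp only [mem_union, mem_inter, mem_compl]
    tauto
  · rw [disjoint_left]
    intro v hv
    simp only [mem_union, mem_inter, mem_compl] at hv ⊢
    tauto
  · rw [disjoint_left]
    intro v hv h2
    rw [mem_inter] at hv h2
    exact nb_disj A h2.2 hv.2

theorem card_parts (A : Finset V) :
    Fintype.card V = A.card + (nb G A).card + ((A ∪ nb G A)ᶜ).card := by
  have h := part3 (G := G) A univ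
  rw [univ_inter, univ_inter, univ_inter, card_univ] at h
  exact h

theorem outside {A : Finset V} (hB : A ∪ nb G A ≠ univ) : ∃ z, z ∉ A ∧ z ∉ nb G A := by
  by_contra h
  push Not at h
  apply hB
  ext v
  simp only [mem_union, mem_univ, iff_true]
  by_cases hv : v ∈ A
  · exact Or.inl hv
  · exact Or.inr (h v hv)

theorem nb_compl_sub (A : Finset V) : nb G (A ∪ nb G A)ᶜ ⊆ nb G A := by
  intro v hv
  rw [mem_nb] at hv
  obtain ⟨h1, x, hx, hxv⟩ := hv
  rw [mem_compl, not_not, mem_union] at h1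
  rcases h1 with h1 | h1
  · exfalso
    rw [mem_compl, mem_union] at hx
    exact hx (mem_or_nb h1 hxv.symm)
  · exact h1

theorem nb_compl (H : Hyp G r) {A : Finset V} (hne : A.Nonempty) (hc : (nb G A).card = 3)
    (hB : A ∪ nb G A ≠ univ) : nb G (A ∪ nb G A)ᶜ = nb G A := by
  obtain ⟨a, ha⟩ := hne
  obtain ⟨z, hz1, hz2⟩ := outside hB
  refine nb_eq_of_three H.c3 (y := a) ⟨z, ?_⟩ (nb_compl_sub A) ?_ ?_ hc
  · rw [mem_compl, mem_union]; tauto
  · rw [mem_compl, mem_union]; tauto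
  · exact fun h => nb_disj A h ha

theorem compl_ne {A : Finset V} (H : Hyp G r) (hne : A.Nonempty) (hc : (nb G A).card = 3)
    (hB : A ∪ nb G A ≠ univ) :
    ((A ∪ nb G A)ᶜ).Nonempty ∧ (A ∪ nb G A)ᶜ ∪ nb G (A ∪ nb G A)ᶜ ≠ univ := by
  constructor
  · obtain ⟨z, hz1, hz2⟩ := outside hB
    exact ⟨z, by rw [mem_compl, mem_union]; tauto⟩
  · rw [nb_compl H hne hc hB]
    intro h
    obtain ⟨a, ha⟩ := hne
    have h2 : a ∈ (A ∪ nb G A)ᶜ ∪ nb G A := by rw [h]; exact mem_univ _
    rw [mem_union, mem_compl, mem_union] at h2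
    rcases h2 with h2 | h2
    · exact h2 (Or.inl ha)
    · exact nb_disj A h2 ha

/-- A side which contains a vertex far from the separator is big. -/
theorem side_big (H : Hyp G r) {A : Finset V} (hc : (nb G A).card = 3)
    (hB : A ∪ nb G A ≠ univ) {s v : V} (hs : s ∈ nb G A) (hv : v ∈ A) (hfar : r ≤ G.dist s v) :
    2 * r ≤ A.card + 3 := by
  have h1 : ((nb G A).erase s).card = 2 := by rw [card_erase_of_mem hs, hc]
  obtain ⟨u, w, huw, he⟩ := card_eq_two.1 h1
  have hA : nb G A = {s, u, w} := by rw [← insert_erase hs, he]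
  have hu : u ∈ (nb G A).erase s := by rw [he]; simp
  have hw : w ∈ (nb G A).erase s := by rw [he]; simp
  rw [mem_erase] at hu hw
  have hr := H.r3
  have hcu := cut_close H ⟨v, hv⟩ hc hB hs hu.2
  have hcw := cut_close H ⟨v, hv⟩ hc hB hs hw.2
  rcases le_total (G.dist s u) (G.dist s w) with h | h
  · have := side_count H hA hu.1.symm hw.1.symm huw hv hfar h (by omega)
    omega
  · have hA' : nb G A = {s, w, u} := by rw [hA]; ext x; simp only [mem_insert, mem_singleton]; tauto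
    have := side_count H hA' hw.1.symm hu.1.symm huw.symm hv hfar h (by omega)
    omega

theorem light_big (H : Hyp G r) {A : Finset V} (hL : Light G r A) :
    2 * r ≤ ((A ∪ nb G A)ᶜ).card + 3 := by
  obtain ⟨hne, hc, hB, hl⟩ := hL
  obtain ⟨hne', hB'⟩ := compl_ne H hne hc hB
  have hnb := nb_compl H hne hc hB
  have h0 : (nb G A).Nonempty := by rw [← card_pos, hc]; norm_num
  obtain ⟨s, hs⟩ := h0
  obtain ⟨y, hy⟩ := H.ecc s
  refine side_big H (by rw [hnb]; exact hc) hB' (s := s) (v := y) (by rw [hnb]; exact hs) ?_ hy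
  rw [mem_compl, mem_union]
  rintro (h | h)
  · have := hl s hs y h; omega
  · have := cut_close H hne hc hB hs h; omega

theorem light_small (H : Hyp G r) {A : Finset V} (hL : Light G r A) : A.card + 5 ≤ 2 * r := by
  have h1 := light_big H hL
  have h2 := card_parts (G := G) A
  have h3 := H.small
  have h4 := hL.2.1
  omega

theorem dichotomy (H : Hyp G r) {A : Finset V} (hne : A.Nonempty) (hc : (nb G A).card = 3)
    (hB : A ∪ nb G A ≠ univ) : Light G r A ∨ Light G r (A ∪ nb G A)ᶜ := by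
  by_contra h
  push Not at h
  obtain ⟨hne', hB'⟩ := compl_ne H hne hc hB
  have hnb := nb_compl H hne hc hB
  have hc' : (nb G (A ∪ nb G A)ᶜ).card = 3 := by rw [hnb]; exact hc
  have k1 : 2 * r ≤ A.card + 3 := by
    by_contra hk
    apply h.1
    refine ⟨hne, hc, hB, ?_⟩
    intro s hs v hv
    by_contra hf
    exact hk (side_big H hc hB hs hv (by omega))
  have k2 : 2 * r ≤ ((A ∪ nb G A)ᶜ).card + 3 := by
    by_contra hk
    apply h.2
    refine ⟨hne', hc', hB', ?_⟩
    intro s hs v hv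
    by_contra hf
    exact hk (side_big H hc' hB' hs hv (by omega))
  have h2 := card_parts (G := G) A
  have h3 := H.small
  omega

theorem nb_inter_sub (A A' : Finset V) :
    nb G (A ∩ A') ⊆ (A ∩ nb G A') ∪ (nb G A ∩ A') ∪ (nb G A ∩ nb G A') := by
  intro v hv
  rw [mem_nb] at hv
  obtain ⟨h1, x, hx, hxv⟩ := hv
  rw [mem_inter] at h1 hx
  simp only [mem_union, mem_inter]
  rcases mem_or_nb hx.1 hxv with h2 | h2 <;> rcases mem_or_nb hx.2 hxv with h3 | h3 <;> tauto

theorem nb_union_sub (A A' : Finset V) :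
    nb G (A ∪ A') ⊆ (nb G A \ A') ∪ (nb G A' \ A) := by
  intro v hv
  rw [mem_nb] at hv
  obtain ⟨h1, x, hx, hxv⟩ := hv
  rw [mem_union] at h1 hx
  simp only [mem_union, mem_sdiff]
  rcases hx with hx | hx
  · rcases mem_or_nb hx hxv with h2 | h2 <;> tauto
  · rcases mem_or_nb hx hxv with h2 | h2 <;> tauto

theorem nb_inter_compl_sub (A A' : Finset V) :
    nb G (A ∩ (A' ∪ nb G A')ᶜ) ⊆
      (A ∩ nb G A') ∪ (nb G A ∩ (A' ∪ nb G A')ᶜ) ∪ (nb G A ∩ nb G A') := by
  intro v hv
  rw [mem_nb] at hv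
  obtain ⟨h1, x, hx, hxv⟩ := hv
  rw [mem_inter, mem_compl, mem_union] at h1 hx
  simp only [mem_union, mem_inter, mem_compl]
  have h3 : v ∉ A' := fun h => hx.2 (mem_or_nb h hxv.symm)
  rcases mem_or_nb hx.1 hxv with h2 | h2 <;> tauto

/-- The last step of section 4. -/
theorem swallow (H : Hyp G r) {A A' : Finset V} {z : V} (hzA : z ∉ A) (hp : nb G A ⊆ A') (hq : A ∩ nb G A' = ∅)
    (ht : nb G A ∩ nb G A' = ∅) : A ⊆ A' := by
  intro v hv
  by_contra hv'
  have h1 : v ∉ nb G A' := by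
    intro h
    have : v ∈ A ∩ nb G A' := mem_inter.2 ⟨hv, h⟩
    rw [hq] at this
    exact notMem_empty _ this
  have h2 : v ∈ A ∩ (A' ∪ nb G A')ᶜ := by
    rw [mem_inter, mem_compl, mem_union]; tauto
  have h3 := three_le H.c3 (X := A ∩ (A' ∪ nb G A')ᶜ) (Z := ∅) (y := z) ⟨v, h2⟩ ?_ ?_ ?_
  · simp at h3
  · refine (nb_inter_compl_sub A A').trans ?_
    intro x hx
    simp only [mem_union, mem_inter, mem_compl] at hx
    rcases hx with (hx | hx) | hx
    · rw [← hq]; exact mem_inter.2 hx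
    · exact absurd (Or.inl (hp hx.1)) hx.2
    · rw [← ht]; exact mem_inter.2 hx
  · rw [mem_inter]; tauto
  · exact notMem_empty _

theorem light_union (H : Hyp G r) {A A' : Finset V} (hA : Light G r A) (hA' : Light G r A')
    (hi : (A ∩ A').Nonempty) : Light G r (A ∪ A') := by
  have hbig := light_big H hA
  have hsm := light_small H hA'
  obtain ⟨hne, hc, hB, hl⟩ := id hA
  obtain ⟨hne', hc', hB', hl'⟩ := id hA'
  obtain ⟨b, hb1, hb2⟩ := outside hB
  obtain ⟨b', hb1', hb2'⟩ := outside hB'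
  have hic : 1 ≤ (A ∩ A').card := card_pos.2 hi
  -- the parts
  have e1 := part3 (G := G) A A'
  have e2 := part3 (G := G) A (nb G A')
  have e3 := part3 (G := G) A' (nb G A)
  have e4 := part3 (G := G) A' (A ∪ nb G A)ᶜ
  rw [inter_comm A' A, inter_comm A' (nb G A)] at e1
  rw [inter_comm (nb G A') (nb G A), inter_comm (nb G A') A] at e2
  rw [inter_comm (A ∪ nb G A)ᶜ A', inter_comm (A ∪ nb G A)ᶜ (nb G A')] at e4
  -- first inequality
  have f1 : 3 ≤ (A ∩ nb G A').card + (nb G A ∩ A').card + (nb G A ∩ nb G A').card := by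
    have h := three_le H.c3 (X := A ∩ A') (y := b) hi (nb_inter_sub A A')
      (by rw [mem_inter]; tauto) (by simp only [mem_union, mem_inter]; tauto)
    have h2 := card_union_le ((A ∩ nb G A') ∪ (nb G A ∩ A')) (nb G A ∩ nb G A')
    have h3 := card_union_le (A ∩ nb G A') (nb G A ∩ A')
    omega
  -- the neighbourhood of the union
  have f2 : ((nb G A \ A') ∪ (nb G A' \ A)).card + (nb G A ∩ A').card + (A ∩ nb G A').card
      + (nb G A ∩ nb G A').card = 6 := by
    have h1 := card_union_add_card_inter (nb G A \ A') (nb G A' \ A)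
    have h2 : (nb G A \ A') ∩ (nb G A' \ A) = nb G A ∩ nb G A' := by
      ext v
      simp only [mem_inter, mem_sdiff]
      have k1 := nb_disj (G := G) A (v := v)
      have k2 := nb_disj (G := G) A' (v := v)
      tauto
    have h3 := card_sdiff_add_card_inter (nb G A) A'
    have h4 := card_sdiff_add_card_inter (nb G A') A
    rw [inter_comm (nb G A') A] at h4
    rw [h2] at h1
    omega
  -- the two other sides meet
  have f3 : ((A ∪ nb G A)ᶜ ∩ (A' ∪ nb G A')ᶜ).Nonempty := by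
    rw [← card_pos]
    omega
  obtain ⟨z, hz⟩ := f3
  rw [mem_inter, mem_compl, mem_compl, mem_union, mem_union] at hz
  have hzA : z ∉ A := fun h => hz.1 (Or.inl h)
  have hzS : z ∉ nb G A := fun h => hz.1 (Or.inr h)
  have hzA' : z ∉ A' := fun h => hz.2 (Or.inl h)
  have hzS' : z ∉ nb G A' := fun h => hz.2 (Or.inr h)
  have hzU : z ∉ A ∪ A' := by rw [mem_union]; tauto
  have hzN : z ∉ (nb G A \ A') ∪ (nb G A' \ A) := by
    simp only [mem_union, mem_sdiff]; tauto
  have hUne : (A ∪ A').Nonempty := hne.mono subset_union_left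
  have f4 := three_le H.c3 (y := z) hUne (nb_union_sub A A') hzU hzN
  have f5 : ((nb G A \ A') ∪ (nb G A' \ A)).card = 3 := by omega
  have hN := nb_eq_of_three H.c3 (y := z) hUne (nb_union_sub A A') hzU hzN f5
  have hNc : (nb G (A ∪ A')).card = 3 := by rw [hN]; exact f5
  have hUB : (A ∪ A') ∪ nb G (A ∪ A') ≠ univ := by
    intro h
    have h2 : z ∈ (A ∪ A') ∪ nb G (A ∪ A') := by rw [h]; exact mem_univ _
    rw [hN, mem_union] at h2
    exact h2.elim hzU hzN
  rcases dichotomy H hUne hNc hUB with hd | hd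
  · exact hd
  exfalso
  have hNC := nb_compl H hUne hNc hUB
  -- far vertices of the members of the neighbourhood are in the union
  have far : ∀ s ∈ (nb G A \ A') ∪ (nb G A' \ A), ∃ v, r ≤ G.dist s v ∧ v ∈ A ∪ A' := by
    intro s hs
    obtain ⟨v, hv⟩ := H.ecc s
    refine ⟨v, hv, ?_⟩
    rw [← hN] at hs
    by_contra h1
    by_cases h2 : v ∈ nb G (A ∪ A')
    · have := cut_close H hUne hNc hUB hs h2; omega
    · have h3 : v ∈ ((A ∪ A') ∪ nb G (A ∪ A'))ᶜ := by
        rw [mem_compl, mem_union]; tauto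
      have := hd.2.2.2 s (by rw [hNC]; exact hs) v h3
      omega
  have far1 : ∀ s ∈ nb G A, s ∉ A' → ∃ v, r ≤ G.dist s v ∧ v ∈ A' ∧ v ∉ A ∧ v ∉ nb G A := by
    intro s hs hs'
    obtain ⟨v, hv, hvU⟩ := far s (by rw [mem_union, mem_sdiff]; tauto)
    have h1 : v ∉ A := fun h => by have := hl s hs v h; omega
    have h2 : v ∉ nb G A := fun h => by have := cut_close H hne hc hB hs h; omega
    rw [mem_union] at hvU
    exact ⟨v, hv, by tauto, h1, h2⟩
  have far2 : ∀ s ∈ nb G A', s ∉ A → ∃ v, r ≤ G.dist s v ∧ v ∈ A ∧ v ∉ A' ∧ v ∉ nb G A' := by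
    intro s hs hs'
    obtain ⟨v, hv, hvU⟩ := far s (by rw [mem_union, mem_sdiff, mem_sdiff]; tauto)
    have h1 : v ∉ A' := fun h => by have := hl' s hs v h; omega
    have h2 : v ∉ nb G A' := fun h => by have := cut_close H hne' hc' hB' hs h; omega
    rw [mem_union] at hvU
    exact ⟨v, hv, by tauto, h1, h2⟩
  -- the separators are disjoint
  have ht : nb G A ∩ nb G A' = ∅ := by
    rw [eq_empty_iff_forall_notMem]
    intro s hs
    rw [mem_inter] at hs
    obtain ⟨v, hv, hvU⟩ := far s (by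
      rw [mem_union, mem_sdiff]
      exact Or.inl ⟨hs.1, nb_disj A' hs.2⟩)
    rw [mem_union] at hvU
    rcases hvU with h | h
    · have := hl s hs.1 v h; omega
    · have := hl' s hs.2 v h; omega
  have ht0 : (nb G A ∩ nb G A').card = 0 := by rw [ht]; rfl
  have hpq : (A ∩ nb G A').card + (nb G A ∩ A').card = 3 := by omega
  by_cases c1 : nb G A ⊆ A'
  · have h1 : (nb G A ∩ A').card = 3 := by rw [inter_eq_left.2 c1]; exact hc
    have h2 : A ∩ nb G A' = ∅ := card_eq_zero.1 (by omega)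
    have h3 := swallow H hzA c1 h2 ht
    have h4 : A ∪ A' = A' := union_eq_right.2 h3
    obtain ⟨s, hs⟩ : (nb G A').Nonempty := by rw [← card_pos, hc']; norm_num
    obtain ⟨v, hv, hvU⟩ := far s (by
      rw [mem_union, mem_sdiff, mem_sdiff]
      right
      refine ⟨hs, fun h => ?_⟩
      exact nb_disj A' hs (h3 h))
    rw [h4] at hvU
    have := hl' s hs v hvU
    omega
  by_cases c2 : nb G A' ⊆ A
  · have h1 : (A ∩ nb G A').card = 3 := by rw [inter_eq_right.2 c2]; exact hc'
    have h2 : A' ∩ nb G A = ∅ := by rw [inter_comm]; exact card_eq_zero.1 (by omega)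
    have h3 := swallow H hzA' c2 h2 (by rw [inter_comm]; exact ht)
    have h4 : A ∪ A' = A := union_eq_left.2 h3
    obtain ⟨s, hs⟩ : (nb G A).Nonempty := by rw [← card_pos, hc]; norm_num
    obtain ⟨v, hv, hvU⟩ := far s (by
      rw [mem_union, mem_sdiff, mem_sdiff]
      left
      refine ⟨hs, fun h => ?_⟩
      exact nb_disj A hs (h3 h))
    rw [h4] at hvU
    have := hl s hs v hvU
    omega
  obtain ⟨s, hs, hs'⟩ := not_subset.1 c1
  obtain ⟨s', hs2, hs2'⟩ := not_subset.1 c2
  obtain ⟨v, _, hv1, hv2, hv3⟩ := far1 s hs hs'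
  obtain ⟨v', _, hv1', hv2', hv3'⟩ := far2 s' hs2 hs2'
  have g1 := three_le H.c3 (X := A ∩ (A' ∪ nb G A')ᶜ) (y := z)
    ⟨v', by rw [mem_inter, mem_compl, mem_union]; tauto⟩ (nb_inter_compl_sub A A')
    (by rw [mem_inter]; tauto) (by simp only [mem_union, mem_inter]; tauto)
  have g2 := three_le H.c3 (X := A' ∩ (A ∪ nb G A)ᶜ) (y := z)
    ⟨v, by rw [mem_inter, mem_compl, mem_union]; tauto⟩ (nb_inter_compl_sub A' A)
    (by rw [mem_inter]; tauto) (by simp only [mem_union, mem_inter]; tauto)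
  have k1 := card_union_le ((A ∩ nb G A') ∪ (nb G A ∩ (A' ∪ nb G A')ᶜ)) (nb G A ∩ nb G A')
  have k2 := card_union_le (A ∩ nb G A') (nb G A ∩ (A' ∪ nb G A')ᶜ)
  have k3 := card_union_le ((A' ∩ nb G A) ∪ (nb G A' ∩ (A ∪ nb G A)ᶜ)) (nb G A' ∩ nb G A)
  have k4 := card_union_le (A' ∩ nb G A) (nb G A' ∩ (A ∪ nb G A)ᶜ)
  rw [inter_comm A' (nb G A)] at k4
  rw [inter_comm A' (nb G A), inter_comm (nb G A') (nb G A)] at k3
  rw [inter_comm A' (nb G A), inter_comm (nb G A') (nb G A)] at g2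
  omega

theorem mx_light (H : Hyp G r) {A : Finset V} {y : V} (hL : Light G r A) (hy : y ∈ A) :
    Light G r (Mx G r y) := by
  obtain ⟨A₀, h0, hmax⟩ := exists_max_image
    ((univ : Finset (Finset V)).filter (fun B => Light G r B ∧ y ∈ B)) card
    ⟨A, by rw [mem_filter]; exact ⟨mem_univ _, hL, hy⟩⟩
  rw [mem_filter] at h0
  have h1 : Mx G r y = A₀ := by
    ext v
    rw [Mx, mem_filter]
    constructor
    · rintro ⟨_, B, hB, hyB, hvB⟩
      have h2 : Light G r (A₀ ∪ B) :=
        light_union H h0.2.1 hB ⟨y, mem_inter.2 ⟨h0.2.2, hyB⟩⟩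
      have h3 := hmax (A₀ ∪ B) (by
        rw [mem_filter]; exact ⟨mem_univ _, h2, mem_union_left _ h0.2.2⟩)
      have h4 : A₀ = A₀ ∪ B := eq_of_subset_of_card_le subset_union_left h3
      rw [h4]
      exact mem_union_right _ hvB
    · intro hv
      exact ⟨mem_univ _, A₀, h0.2.1, h0.2.2, hv⟩
  rw [h1]
  exact h0.2.1

theorem sub_mx (H : Hyp G r) {A : Finset V} {y : V} (hL : Light G r A)
    (hM : Light G r (Mx G r y)) (hi : (A ∩ Mx G r y).Nonempty) : A ⊆ Mx G r y := by
  have hy : y ∈ Mx G r y := by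
    obtain ⟨v, hv⟩ := hM.1
    rw [Mx, mem_filter] at hv
    obtain ⟨_, B, hB, hyB, _⟩ := hv
    rw [Mx, mem_filter]
    exact ⟨mem_univ _, B, hB, hyB, hyB⟩
  intro v hv
  rw [Mx, mem_filter]
  exact ⟨mem_univ _, A ∪ Mx G r y, light_union H hL hM hi, mem_union_right _ hy,
    mem_union_left _ hv⟩

end

end MP_761168_co
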