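import Pool.Agent.Lib.MP_761168_co.X.Poly93

/-!
# From abstract graphs to 3-polytopes
-/

namespace MP_761168_co

open Finset JM93

/-- Euclidean 3-space. -/
abbrev E3 : Type := EuclideanSpace ℝ (Fin 3)

/-- A 3-polytope: the convex hull of a finite set of points, with nonempty interior. -/
def IsPolytope3 (P : Set E3) : Prop :=
  (∃ s : Finset E3, P = convexHull ℝ (s : Set E3)) ∧ (interior P).Nonempty

/-- The vertices of `P` are its extreme points. -/
abbrev Vertex (P : Set E3) : Type := {x : E3 // x ∈ P.extremePoints ℝ}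

/-- The vertex-edge graph of `P`: two different vertices `x` and `y` are joined when the segment
from `x` to `y` is an exposed face of `P`. -/
def vertexGraph (P : Set E3) : SimpleGraph (Vertex P) where
  Adj x y := x ≠ y ∧ IsExposed ℝ P (segment ℝ (x : E3) (y : E3))
  symm := ⟨fun x y h => ⟨h.1.symm, by rw [segment_symm]; exact h.2⟩⟩
  loopless := ⟨fun _ h => h.1 rfl⟩

theorem exposed_of_edge {s : Finset E3} {x y : E3} (h : EdgeIn (verts s) x y) :
    IsExposed ℝ (convexHull ℝ (s : Set E3)) (segment ℝ x y) := by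
  classical
  obtain ⟨hx, hy, hne, l, hxy, hl⟩ := h
  rw [← convexHull_verts]
  have hle : ∀ z ∈ convexHull ℝ (verts s : Set E3), l z ≤ l x := by
    intro z hz
    have hsub : convexHull ℝ (verts s : Set E3) ⊆ {z | l z ≤ l x} := by
      refine convexHull_min ?_ (convex_halfSpace_le l.isLinear _)
      intro u hu
      rw [Finset.mem_coe] at hu
      show l u ≤ l x
      by_cases h1 : u = x
      · rw [h1]
      · by_cases h2 : u = y
        · rw [h2, hxy]
        · exact (hl u hu h1 h2).le
    exact hsub hz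
  have hxm : x ∈ convexHull ℝ (verts s : Set E3) := subset_convexHull ℝ _ (Finset.mem_coe.2 hx)
  have hym : y ∈ convexHull ℝ (verts s : Set E3) := subset_convexHull ℝ _ (Finset.mem_coe.2 hy)
  intro _
  refine ⟨LinearMap.toContinuousLinearMap l, ?_⟩
  ext z
  constructor
  · rintro ⟨a, b, ha, hb, hab, rfl⟩
    refine ⟨(convex_convexHull ℝ _) hxm hym ha hb hab, fun w hw => ?_⟩
    have h1 := hle w hw
    show l w ≤ l (a • x + b • y)
    rw [map_add, map_smul, map_smul, smul_eq_mul, smul_eq_mul, ← hxy, ← add_mul, hab, one_mul]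
    exact h1
  · rintro ⟨hz, hmax⟩
    have hzx : l z = l x := le_antisymm (hle z hz) (hmax x hxm)
    rw [Finset.mem_convexHull'] at hz
    obtain ⟨w, hw0, hw1, hwz⟩ := hz
    have hsum : ∑ u ∈ verts s, w u * (l x - l u) = 0 := by
      have h1 : l z = ∑ u ∈ verts s, w u * l u := by
        rw [← hwz, map_sum]
        exact Finset.sum_congr rfl fun u _ => by rw [map_smul, smul_eq_mul]
      simp only [mul_sub, Finset.sum_sub_distrib]
      rw [← Finset.sum_mul, hw1, one_mul, ← h1, hzx, sub_self]
    have hnn : ∀ u ∈ verts s, 0 ≤ w u * (l x - l u) := fun u hu =>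
      mul_nonneg (hw0 u hu) (sub_nonneg.2 (hle u (subset_convexHull ℝ _ (Finset.mem_coe.2 hu))))
    have hzero : ∀ u ∈ verts s, u ≠ x → u ≠ y → w u = 0 := by
      intro u hu h1 h2
      have h3 := (Finset.sum_eq_zero_iff_of_nonneg hnn).1 hsum u hu
      rcases mul_eq_zero.1 h3 with h4 | h4
      · exact h4
      · exact absurd h4 (sub_pos.2 (hl u hu h1 h2)).ne'
    have hsub : ({x, y} : Finset E3) ⊆ verts s := by
      intro u hu
      rw [Finset.mem_insert, Finset.mem_singleton] at hu
      rcases hu with rfl | rfl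
      · exact hx
      · exact hy
    have e1 : ∑ u ∈ ({x, y} : Finset E3), w u = 1 := by
      rw [← hw1]
      refine Finset.sum_subset hsub fun u hu hn => ?_
      rw [Finset.mem_insert, Finset.mem_singleton, not_or] at hn
      exact hzero u hu hn.1 hn.2
    have e2 : ∑ u ∈ ({x, y} : Finset E3), w u • u = z := by
      rw [← hwz]
      refine Finset.sum_subset hsub fun u hu hn => ?_
      rw [Finset.mem_insert, Finset.mem_singleton, not_or] at hn
      rw [hzero u hu hn.1 hn.2, zero_smul]
    rw [Finset.sum_pair hne] at e1 e2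
    exact ⟨w x, w y, hw0 x hx, hw0 y hy, e1, e2⟩

open scoped Classical in
theorem C3.use {W : Type*} [Fintype W] {G : SimpleGraph W} (h : C3 G) {X : Finset W}
    (hX : X.Nonempty) {y : W} (hy1 : y ∉ X) (hy2 : y ∉ nb G X) : 3 ≤ (nb G X).card := by
  refine h X hX fun hcon => ?_
  have hy : y ∈ X ∪ nb G X := by rw [hcon]; exact Finset.mem_univ y
  rcases Finset.mem_union.1 hy with h1 | h1
  · exact hy1 h1
  · exact hy2 h1

/-- Transfer of a bound for finite 3-connected graphs. -/
theorem polytope_of_graph (c : ℕ)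
    (hG : ∀ (V : Type) [Fintype V] [Nonempty V] (G : SimpleGraph V), G.Connected → C3 G →
      ∀ r : ℕ, (∀ v, ∃ w, r ≤ G.dist v w) → 4 * r ≤ Fintype.card V + c)
    (P : Set E3) (hP : IsPolytope3 P) :
    (P.extremePoints ℝ).Finite ∧ (vertexGraph P).Connected ∧
      ∃ x : Vertex P, ∀ y : Vertex P,
        (vertexGraph P).dist x y ≤ ((P.extremePoints ℝ).ncard + c) / 4 := by
  classical
  obtain ⟨⟨s, hs⟩, hint⟩ := hP
  have haff : affineSpan ℝ (s : Set E3) = ⊤ :=
    affineSpan_eq_top_of_nonempty_interior (by rw [← hs]; exact hint)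
  have h3 : Module.finrank ℝ E3 = 3 := by simp [E3]
  obtain ⟨hconn, hC⟩ := poly_main h3 s haff
  have hmem : ∀ x : E3, x ∈ verts s ↔ x ∈ P.extremePoints ℝ := fun x => by rw [mem_verts, hs]
  let e : {x // x ∈ verts s} ≃ Vertex P := Equiv.subtypeEquivRight hmem
  have he : ∀ x : {x // x ∈ verts s}, ((e x : Vertex P) : E3) = x := fun x => rfl
  set H : SimpleGraph {x // x ∈ verts s} := (vertexGraph P).comap e with hH
  have hle : polyGraph (verts s) ≤ H := by
    intro x y hxy
    have hE : EdgeIn (verts s) (x : E3) (y : E3) := hxy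
    refine ⟨fun hcon => hE.2.2.1 (congrArg (Subtype.val) (e.injective hcon)), ?_⟩
    have h := exposed_of_edge hE
    rw [← hs] at h
    exact h
  have hHconn : H.Connected := hconn.mono hle
  have hHC : C3 H := by
    refine C3_of fun X hX y hy1 hy2 => ?_
    have hsub : nb (polyGraph (verts s)) X ⊆ nb H X := by
      intro v hv
      rw [mem_nb] at hv ⊢
      obtain ⟨h1, x, hx, hxv⟩ := hv
      exact ⟨h1, x, hx, hle hxv⟩
    exact (hC.use hX hy1 fun h => hy2 (hsub h)).trans (Finset.card_le_card hsub)
  have hne : Nonempty {x // x ∈ verts s} := hHconn.nonempty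
  have hfin : (P.extremePoints ℝ).Finite := by
    have h1 : (P.extremePoints ℝ) = (verts s : Set E3) := by
      ext x
      rw [Finset.mem_coe, hmem]
    rw [h1]
    exact (verts s).finite_toSet
  have hcard : Fintype.card {x // x ∈ verts s} = (P.extremePoints ℝ).ncard := by
    have h1 : (P.extremePoints ℝ) = (verts s : Set E3) := by
      ext x
      rw [Finset.mem_coe, hmem]
    rw [h1, Set.ncard_coe_finset, Fintype.card_coe]
  have hdist : ∀ x y : {x // x ∈ verts s}, (vertexGraph P).dist (e x) (e y) ≤ H.dist x y := by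
    intro x y
    obtain ⟨p, hp⟩ := (hHconn.preconnected x y).exists_walk_length_eq_dist
    have h1 := SimpleGraph.dist_le (p.map (SimpleGraph.Hom.comap e (vertexGraph P)))
    rw [SimpleGraph.Walk.length_map, hp] at h1
    exact h1
  have hVconn : (vertexGraph P).Connected := by
    have : Nonempty (Vertex P) := hne.map e
    refine ⟨fun x y => ?_⟩
    obtain ⟨p, -⟩ := (hHconn.preconnected (e.symm x) (e.symm y)).exists_walk_length_eq_dist
    have q := p.map (SimpleGraph.Hom.comap e (vertexGraph P))
    have hx : (SimpleGraph.Hom.comap e (vertexGraph P)) (e.symm x) = x := e.apply_symm_apply x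
    have hy : (SimpleGraph.Hom.comap e (vertexGraph P)) (e.symm y) = y := e.apply_symm_apply y
    rw [hx, hy] at q
    exact ⟨q⟩
  refine ⟨hfin, hVconn, ?_⟩
  by_contra hcon
  push Not at hcon
  have hr : ∀ v, ∃ w, ((P.extremePoints ℝ).ncard + c) / 4 + 1 ≤ H.dist v w := by
    intro v
    obtain ⟨y, hy⟩ := hcon (e v)
    refine ⟨e.symm y, ?_⟩
    have h1 := hdist v (e.symm y)
    rw [e.apply_symm_apply] at h1
    omega
  have := hG _ H hHconn hHC _ hr
  rw [hcard] at this
  omega

end MP_761168_co
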