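import Pool.Agent.Lib.MP_761168_co.X.JM1_56

/-!
# The graph of a 3-polytope: every vertex below the maximum has an increasing neighbour, and
deleting at most two vertices leaves the graph connected
-/

namespace JM93

open Finset

variable {E : Type*} [NormedAddCommGroup E] [InnerProductSpace ℝ E]

/-- `x` and `y` are joined: some linear functional attains its maximum over the finite set `V`
exactly at `x` and `y`. -/
def EdgeIn (V : Finset E) (x y : E) : Prop :=
  x ∈ V ∧ y ∈ V ∧ x ≠ y ∧ ∃ l : E →ₗ[ℝ] ℝ, l x = l y ∧ ∀ z ∈ V, z ≠ x → z ≠ y → l z < l x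

theorem EdgeIn.symm {V : Finset E} {x y : E} (h : EdgeIn V x y) : EdgeIn V y x := by
  obtain ⟨hx, hy, hne, l, hl, hz⟩ := h
  refine ⟨hy, hx, hne.symm, l, hl.symm, fun z hzV h1 h2 => ?_⟩
  rw [← hl]
  exact hz z hzV h2 h1

/-- every point of `V` is exposed in `V` -/
def Exposed (V : Finset E) : Prop :=
  ∀ v ∈ V, ∃ l : E →ₗ[ℝ] ℝ, ∀ u ∈ V, u ≠ v → l v < l u

/-- The increasing neighbour. -/
theorem increasing {V : Finset E} (hV : Exposed V) {v : E} (hv : v ∈ V) (φ : E →ₗ[ℝ] ℝ)
    (hφ : ∃ w ∈ V, φ v < φ w) : ∃ u, EdgeIn V v u ∧ φ v < φ u := by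
  classical
  obtain ⟨l, hl⟩ := hV v hv
  obtain ⟨w, hw, hvw⟩ := hφ
  have hwv : w ≠ v := by
    rintro rfl
    exact lt_irrefl _ hvw
  set W : Finset E := V.erase v with hW
  have hWmem : ∀ u, u ∈ W ↔ u ≠ v ∧ u ∈ V := fun u => by rw [hW, Finset.mem_erase]
  set a : E → ℝ := fun u => l u - l v with ha
  have hapos : ∀ u ∈ W, 0 < a u := fun u hu => by
    rw [hWmem] at hu
    exact sub_pos.2 (hl u hu.2 hu.1)
  set c : E → E := fun u => (a u)⁻¹ • (u - v) with hc
  have hlc : ∀ u ∈ W, u - v = a u • c u := fun u hu => by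
    rw [hc]
    simp only
    rw [smul_smul, mul_inv_cancel₀ (hapos u hu).ne', one_smul]
  have hwW : w ∈ W := (hWmem w).2 ⟨hwv, hw⟩
  -- maximise `φ (c u)`
  obtain ⟨u0, hu0, hmax⟩ := Finset.exists_max_image W (fun u => φ (c u)) ⟨w, hwW⟩
  set M : ℝ := φ (c u0) with hM
  have hMpos : 0 < M := by
    refine lt_of_lt_of_le ?_ (hmax w hwW)
    rw [hc]
    simp only [map_smul, map_sub, smul_eq_mul]
    exact mul_pos (inv_pos.2 (hapos w hwW)) (sub_pos.2 hvw)
  set A : Finset E := W.filter (fun u => φ (c u) = M) with hA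
  obtain ⟨u1, hu1, hmax1⟩ := Finset.exists_max_image A (fun u => ‖c u‖)
    ⟨u0, by rw [hA, Finset.mem_filter]; exact ⟨hu0, rfl⟩⟩
  rw [hA, Finset.mem_filter] at hu1
  set d : E := c u1 with hd
  -- the functional `K φ + ⟪d, ·⟫`
  have hK : ∀ᶠ K : ℝ in Filter.atTop, ∀ u ∈ W, φ (c u) < M →
      K * φ (c u) + inner ℝ d (c u) < K * M + inner ℝ d d := by
    rw [Filter.eventually_all_finset]
    intro u _
    by_cases h : φ (c u) < M
    · have h1 : Filter.Tendsto (fun K : ℝ => K * (M - φ (c u))) Filter.atTop Filter.atTop :=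
        Filter.tendsto_id.atTop_mul_const (sub_pos.2 h)
      filter_upwards [h1.eventually_gt_atTop (inner ℝ d (c u) - inner ℝ d d)] with K hK _
      nlinarith
    · exact Filter.Eventually.of_forall fun K h' => absurd h' h
  obtain ⟨K, hK⟩ := hK.exists
  set g : E →ₗ[ℝ] ℝ := K • φ + (innerₛₗ ℝ d : E →ₗ[ℝ] ℝ) with hg
  have hgv : ∀ x, g x = K * φ x + inner ℝ d x := fun x => by
    rw [hg]
    simp
  have hgd : ∀ u ∈ W, c u ≠ d → g (c u) < g d := by
    intro u hu hne
    rw [hgv, hgv, hd, hu1.2, ← hd]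
    rcases (hmax u hu).lt_or_eq with h | h
    · exact hK u hu h
    · have h2 : φ (c u) = M := h
      rw [h2]
      have h3 : ‖c u‖ ≤ ‖d‖ := hmax1 u (by rw [hA, Finset.mem_filter]; exact ⟨hu, h2⟩)
      have h4 : inner ℝ d (c u) < inner ℝ d d := by
        by_contra hcon
        push Not at hcon
        rw [real_inner_self_eq_norm_sq] at hcon
        have h5 : ‖c u - d‖ ^ 2 ≤ 0 := by
          rw [norm_sub_sq_real, real_inner_comm]
          nlinarith [norm_nonneg (c u), norm_nonneg d]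
        have h6 : ‖c u - d‖ = 0 := by
          have := sq_nonneg ‖c u - d‖
          exact pow_eq_zero_iff (two_ne_zero) |>.1 (le_antisymm h5 this)
        exact hne (sub_eq_zero.1 (norm_eq_zero.1 h6))
      linarith
  have hu1W : u1 ∈ W := hu1.1
  have hu1V := (hWmem u1).1 hu1W
  -- only `u1` lies on its ray
  have hray : ∀ u ∈ W, c u = d → u = u1 := by
    intro u hu hcu
    by_contra hne
    have huV := (hWmem u).1 hu
    have e1 : u - v = a u • d := by rw [← hcu]; exact hlc u hu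
    have e2 : u1 - v = a u1 • d := hlc u1 hu1W
    -- no point strictly between `v` and another point
    have key : ∀ x ∈ W, ∀ y ∈ W, x ≠ y → x - v = a x • d → y - v = a y • d → a x < a y → False := by
      intro x hx y hy hxy ex ey hlt
      have hxV := (hWmem x).1 hx
      have hyV := (hWmem y).1 hy
      obtain ⟨m, hm⟩ := hV x hxV.2
      have h1 := hm v hv hxV.1.symm
      have h2 := hm y hyV.2 (Ne.symm hxy)
      have ex' : x = v + a x • d := by rw [← ex]; abel
      have ey' : y = v + a y • d := by rw [← ey]; abel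
      have f1 : m x = m v + a x * m d := by
        conv_lhs => rw [ex']
        simp
      have f2 : m y = m v + a y * m d := by
        conv_lhs => rw [ey']
        simp
      have hax := hapos x hx
      rw [f1] at h1 h2
      rw [f2] at h2
      have h3 : a x * m d < 0 := by linarith
      have h4 : m d < 0 := by
        by_contra h5
        push Not at h5
        nlinarith [mul_nonneg hax.le h5]
      nlinarith
    rcases lt_trichotomy (a u) (a u1) with h | h | h
    · exact key u hu u1 hu1W hne e1 e2 h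
    · apply hne
      have : u - v = u1 - v := by rw [e1, e2, h]
      exact sub_left_injective this
    · exact key u1 hu1W u hu (Ne.symm hne) e2 e1 h
  refine ⟨u1, ⟨hv, hu1V.2, hu1V.1.symm, g - g d • l, ?_, ?_⟩, ?_⟩
  · have e2 : u1 = v + a u1 • d := by rw [← hlc u1 hu1W]; abel
    have hlu : l u1 - l v = a u1 := rfl
    have h1 : g u1 = g v + a u1 * g d := by
      conv_lhs => rw [e2]
      rw [map_add, map_smul, smul_eq_mul]
    simp only [LinearMap.sub_apply, LinearMap.smul_apply, smul_eq_mul]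
    rw [h1]
    linear_combination (g d) * hlu
  · intro z hz hzv hzu
    have hzW : z ∈ W := (hWmem z).2 ⟨hzv, hz⟩
    have e2 : z = v + a z • c z := by rw [← hlc z hzW]; abel
    have hlz : l z - l v = a z := rfl
    have h1 : g z = g v + a z * g (c z) := by
      conv_lhs => rw [e2]
      rw [map_add, map_smul, smul_eq_mul]
    have h2 : c z ≠ d := fun h => hzu (hray z hzW h)
    have h3 := hgd z hzW h2
    have h4 := hapos z hzW
    simp only [LinearMap.sub_apply, LinearMap.smul_apply, smul_eq_mul]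
    have h5 : l z = l v + a z := by linarith
    rw [h1, h5]
    nlinarith
  · have e2 : u1 = v + a u1 • d := by rw [← hlc u1 hu1W]; abel
    have h1 : φ u1 = φ v + a u1 * φ d := by
      conv_lhs => rw [e2]
      rw [map_add, map_smul, smul_eq_mul]
    rw [h1, hd, hu1.2]
    have := mul_pos (hapos u1 hu1W) hMpos
    linarith

/-- A linear functional which refines the preorder given by `ψ` and separates the points. -/
theorem refine_functional (V : Finset E) (ψ : E →ₗ[ℝ] ℝ) :
    ∃ φ : E →ₗ[ℝ] ℝ, (∀ x ∈ V, ∀ y ∈ V, x ≠ y → φ x ≠ φ y) ∧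
      ∀ x ∈ V, ∀ y ∈ V, ψ x < ψ y → φ x < φ y := by
  classical
  obtain ⟨η, hη⟩ := Module.exists_dual_forall_apply_ne_zero (K := ℝ) (M := E)
    (fun p : {p : V × V // p.1 ≠ p.2} => ((p.1.1 : E) - (p.1.2 : E)))
    (fun p h => p.2 (Subtype.ext (sub_eq_zero.1 h)))
  have hη' : ∀ x ∈ V, ∀ y ∈ V, x ≠ y → η x ≠ η y := by
    intro x hx y hy hxy h
    refine hη ⟨(⟨x, hx⟩, ⟨y, hy⟩), fun h' => hxy (congrArg Subtype.val h')⟩ ?_
    simp only [map_sub, h, sub_self]
  have hK : ∀ᶠ K : ℝ in Filter.atTop, ∀ x ∈ V, ∀ y ∈ V, ψ x < ψ y →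
      K * ψ x + η x < K * ψ y + η y := by
    rw [Filter.eventually_all_finset]
    intro x _
    rw [Filter.eventually_all_finset]
    intro y _
    by_cases h : ψ x < ψ y
    · have h1 : Filter.Tendsto (fun K : ℝ => K * (ψ y - ψ x)) Filter.atTop Filter.atTop :=
        Filter.tendsto_id.atTop_mul_const (sub_pos.2 h)
      filter_upwards [h1.eventually_gt_atTop (η x - η y)] with K hK _
      nlinarith
    · exact Filter.Eventually.of_forall fun K h' => absurd h' h
  obtain ⟨K, hK⟩ := hK.exists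
  have hval : ∀ x, (K • ψ + (η : E →ₗ[ℝ] ℝ)) x = K * ψ x + η x := fun x => by
    simp only [LinearMap.add_apply, LinearMap.smul_apply, smul_eq_mul]
  refine ⟨K • ψ + (η : E →ₗ[ℝ] ℝ), fun x hx y hy hxy h => ?_, fun x hx y hy h => ?_⟩
  · rw [hval, hval] at h
    rcases lt_trichotomy (ψ x) (ψ y) with h1 | h1 | h1
    · exact absurd h (hK x hx y hy h1).ne
    · rw [h1] at h
      exact hη' x hx y hy hxy (add_left_cancel h)
    · exact absurd h (hK y hy x hx h1).ne'
  · rw [hval, hval]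
    exact hK x hx y hy h

/-- If no edge joins `X` and `Y`, then only one of them reaches above the level of `S`. -/
theorem one_side {V : Finset E} (hV : Exposed V) {S X Y : Finset E}
    (hcov : ∀ v ∈ V, v ∈ S ∨ v ∈ X ∨ v ∈ Y) (hX : X ⊆ V) (hY : Y ⊆ V) (hXY : Disjoint X Y)
    (hne : ∀ x ∈ X, ∀ y ∈ Y, ¬ EdgeIn V x y) (ψ : E →ₗ[ℝ] ℝ) (t : ℝ) (hS : ∀ s ∈ S, ψ s ≤ t)
    (h1 : ∃ x ∈ X, t < ψ x) (h2 : ∃ y ∈ Y, t < ψ y) : False := by
  classical
  obtain ⟨φ, hinj, hmono⟩ := refine_functional V ψ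
  obtain ⟨x, hx, hxmax⟩ := Finset.exists_max_image (X.filter (fun x => t < ψ x)) φ
    (by obtain ⟨x, hx, h⟩ := h1; exact ⟨x, by rw [Finset.mem_filter]; exact ⟨hx, h⟩⟩)
  obtain ⟨y, hy, hymax⟩ := Finset.exists_max_image (Y.filter (fun y => t < ψ y)) φ
    (by obtain ⟨y, hy, h⟩ := h2; exact ⟨y, by rw [Finset.mem_filter]; exact ⟨hy, h⟩⟩)
  rw [Finset.mem_filter] at hx hy
  have hxy : x ≠ y := fun h => (Finset.disjoint_left.1 hXY hx.1) (h ▸ hy.1)
  have hup : ∀ v ∈ V, ∀ u ∈ V, t < ψ v → φ v < φ u → t < ψ u := by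
    intro v hv u hu htv hlt
    by_contra hcon
    have : ψ u < ψ v := lt_of_le_of_lt (not_lt.1 hcon) htv
    exact lt_asymm hlt (hmono u hu v hv this)
  rcases lt_or_gt_of_ne (hinj x (hX hx.1) y (hY hy.1) hxy) with h | h
  · obtain ⟨u, hu, hlt⟩ := increasing hV (hX hx.1) φ ⟨y, hY hy.1, h⟩
    have huV : u ∈ V := hu.2.1
    have hut := hup x (hX hx.1) u huV hx.2 hlt
    rcases hcov u huV with h3 | h3 | h3
    · exact absurd (hS u h3) (not_le.2 hut)
    · exact absurd (hxmax u (by rw [Finset.mem_filter]; exact ⟨h3, hut⟩)) (not_le.2 hlt)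
    · exact hne x hx.1 u h3 hu
  · obtain ⟨u, hu, hlt⟩ := increasing hV (hY hy.1) φ ⟨x, hX hx.1, h⟩
    have huV : u ∈ V := hu.2.1
    have hut := hup y (hY hy.1) u huV hy.2 hlt
    rcases hcov u huV with h3 | h3 | h3
    · exact absurd (hS u h3) (not_le.2 hut)
    · exact hne u h3 y hy.1 hu.symm
    · exact absurd (hymax u (by rw [Finset.mem_filter]; exact ⟨h3, hut⟩)) (not_le.2 hlt)

/-- The core of the argument, for a functional that is constant on `S` and at `x0 ∈ X`. -/
theorem core {V : Finset E} (hV : Exposed V) {S X Y : Finset E}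
    (hcov : ∀ v ∈ V, v ∈ S ∨ v ∈ X ∨ v ∈ Y) (hX : X ⊆ V) (hY : Y ⊆ V) (hXY : Disjoint X Y)
    (hYne : Y.Nonempty)
    (hne : ∀ x ∈ X, ∀ y ∈ Y, ¬ EdgeIn V x y) (ψ : E →ₗ[ℝ] ℝ) (t : ℝ) (hS : ∀ s ∈ S, ψ s = t)
    {x0 : E} (hx0 : x0 ∈ X) (hx0t : ψ x0 = t) (hpos : ∃ v ∈ V, t < ψ v) : False := by
  classical
  -- the neighbours of `x0` above and below the level `t` are in `X`
  have hstep : ∀ ψ' : E →ₗ[ℝ] ℝ, ∀ t' : ℝ, (∀ s ∈ S, ψ' s = t') → ψ' x0 = t' →
      (∃ v ∈ V, t' < ψ' v) → ∃ x ∈ X, t' < ψ' x := by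
    intro ψ' t' hS' hx0' hpos'
    obtain ⟨w, hw, hlt⟩ := hpos'
    obtain ⟨u, hu, hlt2⟩ := increasing hV (hX hx0) ψ' ⟨w, hw, by rw [hx0']; exact hlt⟩
    rw [hx0'] at hlt2
    rcases hcov u hu.2.1 with h3 | h3 | h3
    · exact absurd (hS' u h3) hlt2.ne'
    · exact ⟨u, h3, hlt2⟩
    · exact absurd hu (hne x0 hx0 u h3)
  have hXpos := hstep ψ t hS hx0t hpos
  -- no point of `Y` above `t`
  have hYpos : ∀ y ∈ Y, ¬ t < ψ y := fun y hy h =>
    one_side hV hcov hX hY hXY hne ψ t (fun s hs => (hS s hs).le) hXpos ⟨y, hy, h⟩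
  -- no point of `Y` at level `t`
  have hYeq : ∀ y ∈ Y, ψ y ≠ t := by
    intro y hy h
    obtain ⟨w, hw, hlt⟩ := hpos
    obtain ⟨u, hu, hlt2⟩ := increasing hV (hY hy) ψ ⟨w, hw, by rw [h]; exact hlt⟩
    rw [h] at hlt2
    rcases hcov u hu.2.1 with h3 | h3 | h3
    · exact absurd (hS u h3) hlt2.ne'
    · exact hne u h3 y hy hu.symm
    · exact hYpos u h3 hlt2
  obtain ⟨y, hy⟩ := hYne
  have hylt : ψ y < t := lt_of_le_of_ne (not_lt.1 (hYpos y hy)) (hYeq y hy)
  have hS' : ∀ s ∈ S, (-ψ) s = -t := fun s hs => by rw [LinearMap.neg_apply, hS s hs]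
  have hx0' : (-ψ) x0 = -t := by rw [LinearMap.neg_apply, hx0t]
  have hy' : -t < (-ψ) y := by rw [LinearMap.neg_apply]; linarith
  have hXneg := hstep (-ψ) (-t) hS' hx0' ⟨y, hY hy, hy'⟩
  exact one_side hV hcov hX hY hXY hne (-ψ) (-t) (fun s hs => (hS' s hs).le) hXneg ⟨y, hy, hy'⟩

/-- Deleting at most two points of an exposed set that spans the space leaves the graph
connected. -/
theorem no_small_cut [FiniteDimensional ℝ E] (h3 : Module.finrank ℝ E = 3) {V : Finset E}
    (hV : Exposed V) (hspan : vectorSpan ℝ (V : Set E) = ⊤) {S X Y : Finset E}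
    (hcard : S.card ≤ 2)
    (hcov : ∀ v ∈ V, v ∈ S ∨ v ∈ X ∨ v ∈ Y) (hX : X ⊆ V) (hY : Y ⊆ V) (hXY : Disjoint X Y)
    (hXne : X.Nonempty) (hYne : Y.Nonempty)
    (hne : ∀ x ∈ X, ∀ y ∈ Y, ¬ EdgeIn V x y) : False := by
  classical
  obtain ⟨x0, hx0⟩ := hXne
  set T : Finset E := S.image (fun s => s - x0) with hT
  have hTc : T.card ≤ 2 := Finset.card_image_le.trans hcard
  have hlt : Submodule.span ℝ (T : Set E) < ⊤ := by
    rw [lt_top_iff_ne_top]
    intro h
    have h1 := finrank_span_finset_le_card (R := ℝ) T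
    rw [Set.finrank, h, finrank_top, h3] at h1
    omega
  obtain ⟨ψ, hψ0, hψ⟩ := Submodule.exists_le_ker_of_lt_top _ hlt
  have hS : ∀ s ∈ S, ψ s = ψ x0 := by
    intro s hs
    have h1 : s - x0 ∈ LinearMap.ker ψ := hψ (Submodule.subset_span (by
      rw [hT]; exact Finset.mem_coe.2 (Finset.mem_image.2 ⟨s, hs, rfl⟩)))
    rw [LinearMap.mem_ker, map_sub, sub_eq_zero] at h1
    exact h1
  have hex : ∃ v ∈ V, ψ v ≠ ψ x0 := by
    by_contra hcon
    push Not at hcon
    apply hψ0
    have h1 : vectorSpan ℝ (V : Set E) ≤ LinearMap.ker ψ := by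
      rw [vectorSpan_eq_span_vsub_set_right ℝ (Finset.mem_coe.2 (hX hx0)), Submodule.span_le]
      rintro _ ⟨v, hv, rfl⟩
      rw [SetLike.mem_coe, LinearMap.mem_ker]
      simp only [vsub_eq_sub, map_sub]
      rw [hcon v (Finset.mem_coe.1 hv), sub_self]
    rw [hspan, top_le_iff] at h1
    exact LinearMap.ker_eq_top.1 h1
  obtain ⟨v, hv, hvne⟩ := hex
  rcases lt_or_gt_of_ne hvne with h | h
  · refine core hV hcov hX hY hXY hYne hne (-ψ) (-ψ x0) (fun s hs => ?_) hx0 ?_ ⟨v, hv, ?_⟩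
    · rw [LinearMap.neg_apply, hS s hs]
    · rw [LinearMap.neg_apply]
    · rw [LinearMap.neg_apply]; linarith
  · exact core hV hcov hX hY hXY hYne hne ψ (ψ x0) hS hx0 rfl ⟨v, hv, h⟩

/-- The graph on the points of `V`. -/
def polyGraph (V : Finset E) : SimpleGraph {x // x ∈ V} where
  Adj x y := EdgeIn V (x : E) (y : E)
  symm := ⟨fun _ _ h => h.symm⟩
  loopless := ⟨fun _ h => h.2.2.1 rfl⟩

open scoped Classical in
theorem C3_of {W : Type*} [Fintype W] {G : SimpleGraph W}
    (h : ∀ X : Finset W, X.Nonempty → ∀ y, y ∉ X → y ∉ MP_761168_co.nb G X →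
      3 ≤ (MP_761168_co.nb G X).card) : MP_761168_co.C3 G := by
  intro X hX hne
  obtain ⟨y, hy1, hy2⟩ : ∃ y, y ∉ X ∧ y ∉ MP_761168_co.nb G X := by
    by_contra hcon
    push Not at hcon
    refine hne (Finset.eq_univ_iff_forall.2 fun v => ?_)
    rw [Finset.mem_union]
    by_cases hv : v ∈ X
    · exact Or.inl hv
    · exact Or.inr (hcon v hv)
  exact h X hX y hy1 hy2

theorem polyGraph_C3 [FiniteDimensional ℝ E] (h3 : Module.finrank ℝ E = 3) {V : Finset E}
    (hV : Exposed V) (hspan : vectorSpan ℝ (V : Set E) = ⊤) :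
    MP_761168_co.C3 (polyGraph V) := by
  classical
  refine C3_of fun X hX y hy1 hy2 => ?_
  have hy : y ∉ X ∧ y ∉ MP_761168_co.nb (polyGraph V) X := ⟨hy1, hy2⟩
  by_contra hcon
  push Not at hcon
  set S : Finset {x // x ∈ V} := MP_761168_co.nb (polyGraph V) X with hSdef
  set Y : Finset {x // x ∈ V} := Finset.univ.filter (fun v => v ∉ X ∧ v ∉ S) with hYdef
  refine no_small_cut h3 hV hspan (S := S.image Subtype.val) (X := X.image Subtype.val)
    (Y := Y.image Subtype.val) ?_ ?_ ?_ ?_ ?_ (hX.image _) ?_ ?_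
  · exact Finset.card_image_le.trans (by omega)
  · intro v hv
    simp only [Finset.mem_image]
    by_cases h1 : (⟨v, hv⟩ : {x // x ∈ V}) ∈ S
    · exact Or.inl ⟨_, h1, rfl⟩
    · by_cases h2 : (⟨v, hv⟩ : {x // x ∈ V}) ∈ X
      · exact Or.inr (Or.inl ⟨_, h2, rfl⟩)
      · refine Or.inr (Or.inr ⟨⟨v, hv⟩, ?_, rfl⟩)
        rw [hYdef, Finset.mem_filter]
        exact ⟨Finset.mem_univ _, h2, h1⟩
  · intro v hv
    obtain ⟨w, _, rfl⟩ := Finset.mem_image.1 hv
    exact w.2
  · intro v hv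
    obtain ⟨w, _, rfl⟩ := Finset.mem_image.1 hv
    exact w.2
  · rw [Finset.disjoint_left]
    intro v hv1 hv2
    obtain ⟨w, hw, rfl⟩ := Finset.mem_image.1 hv1
    obtain ⟨w', hw', he⟩ := Finset.mem_image.1 hv2
    have : w' = w := Subtype.ext he
    subst this
    rw [hYdef, Finset.mem_filter] at hw'
    exact hw'.2.1 hw
  · refine ⟨(y : E), Finset.mem_image.2 ⟨y, ?_, rfl⟩⟩
    rw [hYdef, Finset.mem_filter]
    exact ⟨Finset.mem_univ _, hy.1, hy.2⟩
  · intro x hx z hz hadj
    obtain ⟨x', hx', rfl⟩ := Finset.mem_image.1 hx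
    obtain ⟨z', hz', rfl⟩ := Finset.mem_image.1 hz
    rw [hYdef, Finset.mem_filter] at hz'
    refine hz'.2.2 ?_
    rw [hSdef, MP_761168_co.mem_nb]
    exact ⟨hz'.2.1, x', hx', hadj⟩

theorem connected_of_C3 {W : Type*} [Fintype W] {G : SimpleGraph W} [Nonempty W]
    (h : MP_761168_co.C3 G) : G.Connected := by
  classical
  refine (SimpleGraph.connected_iff G).2 ⟨fun a b => ?_, inferInstance⟩
  by_contra hab
  set X : Finset W := Finset.univ.filter (fun v => G.Reachable a v) with hX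
  have haX : a ∈ X := by rw [hX, Finset.mem_filter]; exact ⟨Finset.mem_univ _, .refl a⟩
  have hbX : b ∉ X := fun h => hab (by rw [hX, Finset.mem_filter] at h; exact h.2)
  have hnb : MP_761168_co.nb G X = ∅ := by
    rw [Finset.eq_empty_iff_forall_notMem]
    intro v hv
    rw [MP_761168_co.mem_nb] at hv
    obtain ⟨h1, x, hx, hadj⟩ := hv
    apply h1
    rw [hX, Finset.mem_filter] at hx ⊢
    exact ⟨Finset.mem_univ _, hx.2.trans hadj.reachable⟩
  have := h X ⟨a, haX⟩ (by
    rw [hnb, Finset.union_empty]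
    intro h
    exact hbX (by rw [h]; exact Finset.mem_univ _))
  rw [hnb, Finset.card_empty] at this
  omega

/-- The vertices of the polytope `convexHull ℝ s`. -/
noncomputable def verts (s : Finset E) : Finset E := by
  classical
  exact s.filter (fun x => x ∈ (convexHull ℝ (s : Set E)).extremePoints ℝ)

theorem mem_verts {s : Finset E} {x : E} :
    x ∈ verts s ↔ x ∈ (convexHull ℝ (s : Set E)).extremePoints ℝ := by
  classical
  rw [verts, Finset.mem_filter]
  exact ⟨fun h => h.2, fun h => ⟨Finset.mem_coe.1 (extremePoints_convexHull_subset h), h⟩⟩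

theorem coe_verts (s : Finset E) :
    (verts s : Set E) = (convexHull ℝ (s : Set E)).extremePoints ℝ := by
  ext x
  rw [Finset.mem_coe, mem_verts]

theorem exposed_verts (s : Finset E) : Exposed (verts s) := by
  classical
  intro v hv
  have hvext := mem_verts.1 hv
  have hsub : convexHull ℝ ((verts s : Set E) \ {v}) ⊆ convexHull ℝ (s : Set E) := by
    refine convexHull_min ?_ (convex_convexHull ℝ _)
    intro x hx
    rw [coe_verts] at hx
    exact extremePoints_subset hx.1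
  have hnot : v ∉ convexHull ℝ ((verts s : Set E) \ {v}) := by
    intro h
    have h1 := inter_extremePoints_subset_extremePoints_of_subset (𝕜 := ℝ) hsub ⟨h, hvext⟩
    have h2 := extremePoints_convexHull_subset h1
    exact h2.2 rfl
  have hfin : ((verts s : Set E) \ {v}).Finite := (verts s).finite_toSet.subset Set.sdiff_subset
  obtain ⟨f, a, hfa, hlt⟩ := geometric_hahn_banach_point_closed
    (convex_convexHull ℝ ((verts s : Set E) \ {v})) (hfin.isClosed_convexHull ℝ) hnot
  refine ⟨(f : E →ₗ[ℝ] ℝ), fun u hu hne => ?_⟩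
  have := hlt u (subset_convexHull ℝ _ ⟨Finset.mem_coe.2 hu, hne⟩)
  exact hfa.trans this

theorem convexHull_verts (s : Finset E) :
    convexHull ℝ (verts s : Set E) = convexHull ℝ (s : Set E) := by
  have h1 := closure_convexHull_extremePoints
    (s := convexHull ℝ (s : Set E)) (s.finite_toSet.isCompact_convexHull ℝ) (convex_convexHull ℝ _)
  rw [← coe_verts, ((verts s).finite_toSet.isClosed_convexHull ℝ).closure_eq] at h1
  exact h1

theorem vectorSpan_verts (s : Finset E) (h : affineSpan ℝ (s : Set E) = ⊤) :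
    vectorSpan ℝ (verts s : Set E) = ⊤ := by
  have h1 : affineSpan ℝ (verts s : Set E) = ⊤ := by
    rw [← affineSpan_convexHull, convexHull_verts, affineSpan_convexHull, h]
  exact AffineSubspace.vectorSpan_eq_top_of_affineSpan_eq_top ℝ E E h1

/-- The graph of a 3-polytope is connected and 3-connected. -/
theorem poly_main [FiniteDimensional ℝ E] (h3 : Module.finrank ℝ E = 3) (s : Finset E)
    (hs : affineSpan ℝ (s : Set E) = ⊤) :
    (polyGraph (verts s)).Connected ∧ MP_761168_co.C3 (polyGraph (verts s)) := by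
  have hC := polyGraph_C3 h3 (exposed_verts s) (vectorSpan_verts s hs)
  have hne : Nonempty {x // x ∈ verts s} := by
    by_contra hcon
    rw [not_nonempty_iff] at hcon
    have h1 : (verts s : Set E) = ∅ := by
      ext x
      constructor
      · intro hx
        exact (hcon.false ⟨x, hx⟩).elim
      · intro hx
        exact hx.elim
    have h2 := vectorSpan_verts s hs
    rw [h1, vectorSpan_empty] at h2
    have h4 : Module.finrank ℝ E = 0 := by
      rw [← finrank_top ℝ E, ← h2, finrank_bot]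
    omega
  exact ⟨connected_of_C3 hC, hC⟩

end JM93
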